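import Mathlib
import Pool.Agent.Helper36.Braid.Final

set_option autoImplicit false

namespace Pool.Agent.Results.MP_97f678_al.MinAdmissibleOrder

open Pool.Agent.Helper36.Braid

/-- For every `b ≥ 2` the least order of an admissible quotient of the two-strand pure braid group
`P₂(Σ_b)` is `2 ^ (2 b + 1)`. -/
theorem result : ∀ b : ℕ, 2 ≤ b →
    IsLeast (admissibleOrders b) (2 ^ (2 * b + 1)) ∧ minOrder b = 2 ^ (2 * b + 1) :=
  fun _ hb => ⟨main hb, minOrder_eq hb⟩

end Pool.Agent.Results.MP_97f678_al.MinAdmissibleOrder
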